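import Pool.Agent.Q175.HR.Fin

/-! The critical Rellich inequality with logarithmic weight (`k = 2`) fails for all `N ≥ 400`. -/

set_option autoImplicit false

open MeasureTheory InnerProductSpace Laplacian

namespace Pool.Agent.Results.MP_ec5c38_an.RellichFails

/-- `ℝᴺ` -/
abbrev E (N : ℕ) : Type := EuclideanSpace ℝ (Fin N)

/-- `|∇^k u|`, with the Rellich convention: `∇^k u = Δ^{k/2} u` for even `k` and
`∇^k u = ∇ Δ^{(k-1)/2} u` for odd `k`. -/
noncomputable def absNabla {N : ℕ} (k : ℕ) (u : E N → ℝ) (x : E N) : ℝ :=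
  if Even k then |((fun f : E N → ℝ => Δ f)^[k / 2] u) x|
  else ‖gradient ((fun f : E N → ℝ => Δ f)^[k / 2] u) x‖

/-- the constant `C_{N,k}` -/
noncomputable def constC (N k : ℕ) : ℝ :=
  (∏ j ∈ Finset.Icc 1 k, (((j : ℕ) : ℝ) * N - k) / N) ^ ((N : ℝ) / k)

/-- the left side of (i) without the constant -/
noncomputable def leftSide {N : ℕ} (k : ℕ) (R : ℝ) (u : E N → ℝ) : ENNReal :=
  ∫⁻ x in Metric.ball (0 : E N) R,
    ENNReal.ofReal (|u x| ^ ((N : ℝ) / k) / (‖x‖ ^ N * Real.log (R / ‖x‖) ^ N))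

/-- the right side of (i) -/
noncomputable def rightSide {N : ℕ} (k : ℕ) (R : ℝ) (u : E N → ℝ) : ENNReal :=
  ∫⁻ x in Metric.ball (0 : E N) R, ENNReal.ofReal (absNabla k u x ^ ((N : ℝ) / k))

/-- `u ∈ C_c^k(B_R)` -/
def IsCc {N : ℕ} (k : ℕ) (R : ℝ) (u : E N → ℝ) : Prop :=
  ContDiff ℝ k u ∧ HasCompactSupport u ∧ tsupport u ⊆ Metric.ball (0 : E N) R

/-- statement (i) for given `N`, `k`, `R` -/
def StatementI (N k : ℕ) (R : ℝ) : Prop :=
  ∀ u : E N → ℝ, IsCc k R u → ENNReal.ofReal (constC N k) * leftSide k R u ≤ rightSide k R u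

/-- For all `N ≥ 400` and all `R > 0` statement (i) fails for `k = 2`: there is a radial function
`u ∈ C_c²(B_R)` with finite right side and `∫ |Δu|^{N/2} < C_{N,2} ∫ |u|^{N/2} / (|x|^N log(R/|x|)^N)`. -/
theorem result (N : ℕ) (hN : 400 ≤ N) (R : ℝ) (hR : 0 < R) :
    (∃ u : E N → ℝ, IsCc 2 R u ∧ (∀ x y : E N, ‖x‖ = ‖y‖ → u x = u y) ∧ rightSide 2 R u < ⊤ ∧
      rightSide 2 R u < ENNReal.ofReal (constC N 2) * leftSide 2 R u) ∧
    ¬ StatementI N 2 R := by
  have hN2 : 2 < N := by omega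
  have ha : (0:ℝ) < N - 2 := by
    have : (2:ℝ) < N := by exact_mod_cast hN2
    linarith
  set r := R * Real.exp (-(1 / 100 / ((N:ℝ) - 2))) with hr
  have hrR : r < R := by
    have : Real.exp (-(1 / 100 / ((N:ℝ) - 2))) < 1 := by
      rw [Real.exp_lt_one_iff]
      have : 0 < 1 / 100 / ((N:ℝ) - 2) := by positivity
      linarith
    rw [hr]
    nlinarith
  have hsupp : Function.support (Q175.HR.uu N R) ⊆ Metric.closedBall 0 r := by
    intro x hx
    rw [mem_closedBall_zero_iff]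
    by_contra h
    rw [not_le] at h
    exact hx (Q175.HR.uu_zero hR hN2 h.le)
  have hts : tsupport (Q175.HR.uu N R) ⊆ Metric.closedBall 0 r :=
    closure_minimal hsupp Metric.isClosed_closedBall
  have hcc : IsCc 2 R (Q175.HR.uu N R) :=
    ⟨Q175.HR.uu_C2 hR hN2, HasCompactSupport.of_support_subset_isCompact (isCompact_closedBall _ _) hsupp,
      hts.trans (Metric.closedBall_subset_ball hrR)⟩
  have hR2 : rightSide 2 R (Q175.HR.uu N R) = ∫⁻ x in Metric.ball (0 : E N) R,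
      ENNReal.ofReal (|Δ (Q175.HR.uu N R) x| ^ ((N:ℝ) / 2)) := by
    unfold rightSide absNabla
    simp only [even_two, if_true, Nat.cast_ofNat]
    rfl
  have hC : constC N 2 = (((1 * (N:ℝ) - 2) / N) * ((2 * (N:ℝ) - 2) / N)) ^ ((N:ℝ) / 2) := by
    unfold constC
    rw [show Finset.Icc 1 2 = {1, 2} by decide, Finset.prod_pair (by norm_num)]
    norm_num
  have hL : leftSide 2 R (Q175.HR.uu N R) = ∫⁻ x in Metric.ball (0 : E N) R,
      ENNReal.ofReal (|Q175.HR.uu N R x| ^ ((N:ℝ) / 2) / (‖x‖ ^ N * Real.log (R / ‖x‖) ^ N)) := by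
    unfold leftSide
    simp only [Nat.cast_ofNat]
  have hlt : rightSide 2 R (Q175.HR.uu N R) < ENNReal.ofReal (constC N 2) * leftSide 2 R (Q175.HR.uu N R) := by
    rw [hR2, hC, hL]
    exact Q175.HR.main hN hR
  refine ⟨⟨Q175.HR.uu N R, hcc, ?_, ?_, hlt⟩, fun h => absurd (h _ hcc) (not_le.mpr hlt)⟩
  · intro x y hxy
    unfold Q175.HR.uu
    by_cases hx : x = 0
    · have hy : y = 0 := by rw [hx, norm_zero] at hxy; exact norm_eq_zero.mp hxy.symm
      rw [if_pos hx, if_pos hy]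
    · have hy : y ≠ 0 := by
        intro hy
        rw [hy, norm_zero] at hxy
        exact hx (norm_eq_zero.mp hxy)
      rw [if_neg hx, if_neg hy, hxy]
  · rw [hR2]
    exact lt_of_le_of_lt (setLIntegral_le_lintegral _ _)
      (lt_of_le_of_lt (Q175.HR.rhs hN2 hR) ENNReal.ofReal_lt_top)

end Pool.Agent.Results.MP_ec5c38_an.RellichFails
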